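import Pool.Agent.H29.SL.Targets

/-!
# Board so_modules: CI (class I)
-/

set_option autoImplicit false

namespace Pool.Agent.H16.SL

open Pool.Agent.H29.SL

/-- splitting the geometric sum -/
theorem sg_split (p a c : ℕ) (hc : 1 ≤ c) (hca : c ≤ a) :
    sg p a = sg p (c - 1) + p ^ c * sg p (a - c) := by
  unfold sg
  have h1 : a + 1 = c + (a - c + 1) := by omega
  rw [h1, Finset.sum_range_add, Nat.sub_add_cancel hc, Finset.mul_sum]
  congr 1
  refine Finset.sum_congr rfl fun i _ => ?_
  rw [pow_add]

theorem sg_pos (p a : ℕ) : 1 ≤ sg p a := by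
  unfold sg
  rw [Finset.sum_range_succ']
  simp

theorem pow_le_sg (p a : ℕ) : p ^ a ≤ sg p a := by
  unfold sg
  exact Finset.single_le_sum (f := fun i => p ^ i) (fun _ _ => Nat.zero_le _)
    (Finset.self_mem_range_succ a)

theorem pow34 (e k P : ℕ) (h : 3 ^ k * P ≤ 4 ^ k * e) (m : ℕ) :
    3 ^ (k + m) * P ≤ 4 ^ (k + m) * e := by
  induction m with
  | zero => simpa using h
  | succ m ih =>
    rw [← add_assoc, pow_succ, pow_succ]
    calc 3 ^ (k + m) * 3 * P = 3 * (3 ^ (k + m) * P) := by ring
      _ ≤ 3 * (4 ^ (k + m) * e) := Nat.mul_le_mul_left _ ih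
      _ ≤ 4 * (4 ^ (k + m) * e) := Nat.mul_le_mul_right _ (by norm_num)
      _ = 4 ^ (k + m) * 4 * e := by ring

theorem pf_CI (hST : T_ST) : T_CI := by
  intro p q c a e u hp hp3 hc hca hev hdvd hqu
  obtain ⟨m, hm⟩ := hdvd
  have hs := sg_mul p (c - 1) (by omega)
  rw [Nat.sub_add_cancel hc] at hs
  have ha := sg_mul p a (by omega)
  have hsp := sg_split p a c hc hca
  have hs1 := sg_pos p (c - 1)
  have ha1 := sg_pos p a
  have hu1 : 1 ≤ u := by
    rcases Nat.eq_zero_or_pos u with h | h
    · rw [h, mul_zero] at hqu; omega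
    · exact h
  have hPle : p ^ c ≤ sg p a := le_trans (Nat.pow_le_pow_right (by omega) hca) (pow_le_sg p a)
  generalize hP : p ^ c = P at *
  generalize hS : sg p (c - 1) = s at *
  have hPZ : ((p : ℤ) - 1) * s + 1 = P := by
    have : ((p - 1 : ℕ) : ℤ) = (p : ℤ) - 1 := by push_cast [Nat.cast_sub (show 1 ≤ p by omega)]; ring
    rw [← this]; exact_mod_cast hs
  have hsP : s < P := by
    have h1 : 2 * s ≤ (p - 1) * s := Nat.mul_le_mul_right _ (by omega)
    omega
  -- the congruence for q
  have hq : (q : ℤ) ≡ -1 [ZMOD P] := by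
    rw [Int.modEq_iff_dvd]
    refine ⟨-m, ?_⟩
    have : (q : ℤ) + 1 = P * m := by exact_mod_cast hm
    linarith
  have hA : (q : ℤ) ^ e * u ≡ s [ZMOD P] := by
    have h1 : (q : ℤ) ^ e * u = s + P * sg p (a - c) := by
      have : ((q ^ e * u : ℕ) : ℤ) = ((s + P * sg p (a - c) : ℕ) : ℤ) := by rw [hqu, hsp]
      push_cast at this
      exact this
    rw [h1]
    exact (Int.modEq_iff_dvd.2 ⟨-(sg p (a - c) : ℤ), by ring⟩)
  have hqe : (q : ℤ) ^ e * u ≡ (-1) ^ e * u [ZMOD P] := (hq.pow e).mul_right _
  have hB : (-1 : ℤ) ^ e * u ≡ s [ZMOD P] := hqe.symm.trans hA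
  rcases Nat.eq_zero_or_pos e with he | he
  · subst he
    have h1 : P ≤ u := by
      rw [pow_zero, one_mul] at hqu; omega
    constructor
    · intro _; simpa using h1
    · intro _; norm_num; omega
  rcases Nat.even_or_odd e with hee | heo
  · -- even exponent
    rw [hee.neg_one_pow, one_mul] at hB
    by_cases huP : P ≤ u
    · constructor
      · intro _
        have := pow34 u 0 P (by simpa using huP) e
        simpa using this
      · intro _
        have := pow34 u 0 P (by simpa using huP) (e + 2)
        simpa using this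
    · have hus : u = s := by
        have h1 : u % P = s % P := by
          have := hB
          unfold Int.ModEq at this
          exact_mod_cast this
        rwa [Nat.mod_eq_of_lt (by omega), Nat.mod_eq_of_lt hsP] at h1
      obtain ⟨f, hf⟩ := hee
      have he2 : 2 ≤ e := by omega
      constructor
      · intro hp3'
        exfalso
        have hp5 : 5 ≤ p := by
          rcases (by omega : p = 4 ∨ 5 ≤ p) with h | h
          · subst h; exact absurd hp (by norm_num)
          · exact h
        -- the equation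
        have hEq : p ^ (a + 1) = (P - 1) * (q ^ f) ^ 2 + 1 := by
          rw [← ha, ← hqu, hus, hf, ← pow_mul, mul_two]
          have : P - 1 = (p - 1) * s := by omega
          rw [this]; ring
        rcases Nat.even_or_odd c with hce | hco
        · have h1 : (p : ℤ) + 1 ∣ (P : ℤ) - 1 := by
            have h2 : (p : ℤ) + 1 ∣ (p : ℤ) ^ c - (-1) ^ c := by
              have := sub_dvd_pow_sub_pow (p : ℤ) (-1) c
              simpa using this
            rw [hce.neg_one_pow] at h2
            rw [← hP]; exact_mod_cast h2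
          have h3 : (p : ℤ) + 1 ∣ (p : ℤ) ^ (a + 1) + 1 := by
            have h2 : (p : ℤ) + 1 ∣ (p : ℤ) ^ (a + 1) - (-1) ^ (a + 1) := by
              have := sub_dvd_pow_sub_pow (p : ℤ) (-1) (a + 1)
              simpa using this
            rw [hev.add_one.neg_one_pow] at h2
            simpa using h2
          have h4 : (p : ℤ) ^ (a + 1) = ((P : ℤ) - 1) * ((q : ℤ) ^ f) ^ 2 + 1 := by
            have h5 : ((P - 1 : ℕ) : ℤ) = (P : ℤ) - 1 := by
              rw [Nat.cast_sub (by omega)]; simp
            rw [← h5]; exact_mod_cast hEq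
          have h6 : (p : ℤ) + 1 ∣ 2 := by
            rw [h4] at h3
            have h7 : (p : ℤ) + 1 ∣ ((P : ℤ) - 1) * ((q : ℤ) ^ f) ^ 2 := Dvd.dvd.mul_right h1 _
            have h8 := dvd_sub h3 h7
            have h9 : ((P : ℤ) - 1) * ((q : ℤ) ^ f) ^ 2 + 1 + 1 - ((P : ℤ) - 1) * ((q : ℤ) ^ f) ^ 2
              = 2 := by ring
            rwa [h9] at h8
          have := Int.le_of_dvd (by norm_num) h6
          omega
        · obtain ⟨t, ht⟩ : ∃ t, a + 1 - c = 2 * t := by
            obtain ⟨x, hx⟩ := hev
            obtain ⟨y, hy⟩ := hco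
            exact ⟨x - y, by omega⟩
          have ht1 : 1 ≤ t := by omega
          have h1 : p ^ (a + 1) = p ^ c * (p ^ t) ^ 2 := by
            rw [← pow_mul, ← pow_add]
            congr 1
            omega
          apply hST p c t (q ^ f) hp hp5 hc ht1
          rw [← h1, hP]
          exact hEq
      · intro hp3'
        subst hp3'
        have h1 : 3 ^ 4 * P ≤ 4 ^ 4 * u := by
          rw [hus]
          norm_num
          omega
        have h2 := pow34 u 4 P h1 (e - 2)
        have h3 : 4 + (e - 2) = e + 2 := by omega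
        rwa [h3] at h2
  · -- odd exponent
    rw [heo.neg_one_pow] at hB
    have hd : P ∣ u + s := by
      have h1 : (P : ℤ) ∣ s - (-1) * u := Int.modEq_iff_dvd.1 hB
      have h2 : (s : ℤ) - (-1) * u = ((u + s : ℕ) : ℤ) := by push_cast; ring
      rw [h2] at h1
      exact_mod_cast h1
    have hge : P ≤ u + s := Nat.le_of_dvd (by omega) hd
    constructor
    · intro hp3'
      have hp5 : 5 ≤ p := by
        rcases (by omega : p = 4 ∨ 5 ≤ p) with h | h
        · subst h; exact absurd hp (by norm_num)
        · exact h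
      have h4 : 3 ^ 1 * P ≤ 4 ^ 1 * u := by
        have h5 : 4 * s ≤ (p - 1) * s := Nat.mul_le_mul_right _ (by omega)
        omega
      have h2 := pow34 u 1 P h4 (e - 1)
      have h3 : 1 + (e - 1) = e := by omega
      rwa [h3] at h2
    · intro hp3'
      subst hp3'
      have h4 : 3 ^ 3 * P ≤ 4 ^ 3 * u := by
        norm_num
        omega
      have h2 := pow34 u 3 P h4 (e - 1)
      have h3 : 3 + (e - 1) = e + 2 := by omega
      rwa [h3] at h2

end Pool.Agent.H16.SL
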